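import Pool.Agent.Helper77_OMF.UNC

/-! Squad OMF, row CON (the conic case). -/

namespace Pool.Agent.OMF.H61

open Finset Pool.Agent.GTO
open scoped Classical

theorem par_ip {u v τ : V} (hu : u ≠ 0) (h : cr u v = 0) (h' : ip τ u = 0) : ip τ v = 0 := by
  have h0 := congrFun h 0
  have h1 := congrFun h 1
  have h2 := congrFun h 2
  simp only [cr, Matrix.cons_val_zero, Matrix.cons_val_one, Matrix.cons_val, Pi.zero_apply]
    at h0 h1 h2
  simp only [ip] at h' ⊢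
  have hu' : u 0 ≠ 0 ∨ u 1 ≠ 0 ∨ u 2 ≠ 0 := by
    by_contra hc
    push Not at hc
    apply hu
    ext i
    fin_cases i
    · simpa using hc.1
    · simpa using hc.2.1
    · simpa using hc.2.2
  rcases hu' with hm | hm | hm
  · apply mul_left_cancel₀ hm
    linear_combination (v 0) * h' + (τ 1) * h2 - (τ 2) * h1
  · apply mul_left_cancel₀ hm
    linear_combination (v 1) * h' - (τ 0) * h2 + (τ 2) * h0
  · apply mul_left_cancel₀ hm
    linear_combination (v 2) * h' + (τ 0) * h1 - (τ 1) * h0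

theorem ip_cr_self (τ u : V) : ip τ (cr τ u) = 0 := by
  simp only [ip, cr, Matrix.cons_val_zero, Matrix.cons_val_one, Matrix.cons_val]
  ring

theorem dt_cr_swap (p q τ g g' : V) : dt p q (cr τ (cr g' g)) = - dt p q (cr τ (cr g g')) := by
  simp only [dt, cr, Matrix.cons_val_zero, Matrix.cons_val_one, Matrix.cons_val]
  ring

theorem quad_move (e : Fin 6 → ℝ) (v w : V) (t : ℝ) :
    quad e (v + t • w) = quad e v + t * ip (tg e v) w + t ^ 2 * quad e w := by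
  simp only [quad, tg, ip, Pi.add_apply, Pi.smul_apply, smul_eq_mul, Matrix.cons_val_zero,
    Matrix.cons_val_one, Matrix.cons_val]
  ring

theorem cub_ne {e : Fin 6 → ℝ} {w : V} {c : Fin 10 → ℝ} (he : NoLineQ e) (hw : w ≠ 0)
    (hc : ∀ v, cub c v = ip w v * quad e v) : c ≠ 0 := by
  intro h0
  have hz : ∀ v, ip w v * quad e v = 0 := by
    intro v
    rw [← hc v, h0]
    simp [cub]
  have hww : 0 < ip w w := by
    simp only [ip]
    by_contra hcon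
    apply hw
    ext i
    fin_cases i
    · simp only [Fin.zero_eta, Pi.zero_apply]
      nlinarith [sq_nonneg (w 0), sq_nonneg (w 1), sq_nonneg (w 2)]
    · simp only [Fin.mk_one, Pi.zero_apply]
      nlinarith [sq_nonneg (w 0), sq_nonneg (w 1), sq_nonneg (w 2)]
    · simp only [Fin.reduceFinMk, Pi.zero_apply]
      nlinarith [sq_nonneg (w 0), sq_nonneg (w 1), sq_nonneg (w 2)]
  obtain ⟨s, t, h1⟩ := he ![1, 0, 0] ![0, 1, 0] (by
    intro h2
    have := congrFun h2 2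
    simp [cr] at this)
  obtain ⟨v0, hv0⟩ : ∃ v0 : V, v0 = s • ![1, 0, 0] + t • ![0, 1, 0] := ⟨_, rfl⟩
  rw [← hv0] at h1
  have h2 : ip w v0 = 0 := by
    rcases mul_eq_zero.mp (hz v0) with h | h
    · exact h
    · exact absurd h h1
  have h3 : ∀ r : ℝ, r ≠ 0 → quad e v0 + r * ip (tg e v0) w + r ^ 2 * quad e w = 0 := by
    intro r hr
    rw [← quad_move]
    rcases mul_eq_zero.mp (hz (v0 + r • w)) with h | h
    · exfalso
      have : ip w (v0 + r • w) = ip w v0 + r * ip w w := by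
        simp only [ip, Pi.add_apply, Pi.smul_apply, smul_eq_mul]
        ring
      rw [this, h2, zero_add] at h
      rcases mul_eq_zero.mp h with h | h
      · exact hr h
      · exact absurd h hww.ne'
    · exact h
  have a1 := h3 1 one_ne_zero
  have a2 := h3 (-1) (by norm_num)
  have a3 := h3 2 (by norm_num)
  apply h1
  linarith

/-- one point of the conic -/
theorem one_pt (unc : UncStmt) (rci : RciStmt) {ι : Type} [Fintype ι] {a : ι → V} (ha : PI a)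
    {N k μ : ℕ} {e : Fin 6 → ℝ} (hN : 10 ≤ N) (hk : 10 ≤ k) (hkN : k ≤ N + 1)
    (hcard : 2 * N + 5 < Fintype.card ι) (hnl : NoLineQ e) (hke : k ≤ (Zq a e).card) {x : ι}
    (hx : x ∈ Zq a e) (hxU : x ∉ UU a k) (hxE : x ∉ EX a k) (hμ : (Miss a N x).card ≤ μ) :
    ∃ Bd : Finset ι, Bd.card ≤ μ + 2 * (EX a k).card + 1 ∧
      (Bd = univ ∨ ∀ y, y ∉ Bd → y ∈ Zq a e ∨ Cls a k e x y) := by
  obtain ⟨Bd, hBd, h⟩ := unc ι a ha N k x hN hk hkN hcard hxU hxE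
  refine ⟨Bd, by omega, ?_⟩
  rcases h with ⟨c, hc, h1, h2⟩ | ⟨e', he', h1, h2, h3, h4⟩
  · by_cases hB : Bd = univ
    · exact Or.inl hB
    · exfalso
      obtain ⟨c1, c2, c3⟩ := h2 hB
      exact rci.2.2.1 ι a ha c e c1 hnl (by omega)
        (H77U.same hxE (H77U.rc_cubic c1 c2) (H77U.rc_conic hnl hke) c3 hx)
  · right
    have hZ : Zq a e' = Zq a e :=
      H77U.same hxE (H77U.rc_conic he' h1) (H77U.rc_conic hnl hke) h2 hx
    obtain ⟨t, ht, hte⟩ := H77U.conic_eq rci ha hnl he' hZ (by omega)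
    intro y hy
    rcases h4 y hy with h5 | ⟨-, h5⟩
    · left; rw [← hZ]; exact h5
    · right; exact H77U.cls_smul ht hte hZ h5

/-- the row CON -/
theorem con (bas : BasStmt) (lnf : LnfStmt) (unc : UncStmt) (rci : RciStmt) (uni : UniStmt)
    (tn3 : Tn3Stmt) : ConStmt := by
  intro ι _ a ha N k μ e x hN hk hkN hcard hnl hke hinj hx
  have hpt : ∀ i, ∃ Bd : Finset ι, Bd.card ≤ μ + 2 * (EX a k).card + 1 ∧
      (Bd = univ ∨ ∀ y, y ∉ Bd → y ∈ Zq a e ∨ Cls a k e (x i) y) := fun i =>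
    one_pt unc rci ha hN hk hkN hcard hnl hke (hx i).1 (hx i).2.1 (hx i).2.2.1 (hx i).2.2.2
  choose Bd hBd hB using hpt
  have hun : (Bd 0 ∪ Bd 1 ∪ Bd 2 ∪ EX a k).card ≤
      3 * (μ + 2 * (EX a k).card + 1) + (EX a k).card := by
    have c1 := card_union_le (Bd 0 ∪ Bd 1 ∪ Bd 2) (EX a k)
    have c2 := card_union_le (Bd 0 ∪ Bd 1) (Bd 2)
    have c3 := card_union_le (Bd 0) (Bd 1)
    have d0 := hBd 0
    have d1 := hBd 1
    have d2 := hBd 2
    omega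
  have hsub : ∀ i, Bd i ⊆ Bd 0 ∪ Bd 1 ∪ Bd 2 ∪ EX a k := by
    intro i y hy
    simp only [mem_union]
    fin_cases i
    · exact Or.inl (Or.inl (Or.inl hy))
    · exact Or.inl (Or.inl (Or.inr hy))
    · exact Or.inl (Or.inr hy)
  -- it is enough to find a linear form
  have main : (∃ w : V, w ≠ 0 ∧ ∀ z, z ∉ Bd 0 ∪ Bd 1 ∪ Bd 2 ∪ EX a k → z ∉ Zq a e →
      ip w (a z) = 0) → ∃ c : Fin 10 → ℝ, c ≠ 0 ∧
    (univ.filter fun i => cub c (a i) ≠ 0).card ≤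
      3 * (μ + 2 * (EX a k).card + 1) + (EX a k).card := by
    rintro ⟨w, hw, hz⟩
    obtain ⟨c, hc⟩ := lnf.2.2.2.2.2.1 w e
    refine ⟨c, cub_ne hnl hw hc, le_trans (card_le_card ?_) hun⟩
    intro i hi
    by_contra hcon
    rw [mem_filter] at hi
    apply hi.2
    rw [hc]
    by_cases hq : i ∈ Zq a e
    · unfold Zq at hq
      rw [mem_filter] at hq
      rw [hq.2, mul_zero]
    · rw [hz i hcon hq, zero_mul]
  apply main
  by_cases hall : ∀ z, z ∉ Bd 0 ∪ Bd 1 ∪ Bd 2 ∪ EX a k → z ∈ Zq a e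
  · refine ⟨![1, 0, 0], ?_, fun z hz hz' => absurd (hall z hz) hz'⟩
    intro h
    have := congrFun h 0
    simp at this
  push Not at hall
  obtain ⟨z0, hz0, hz0'⟩ := hall
  have hcls : ∀ i z, z ∉ Bd 0 ∪ Bd 1 ∪ Bd 2 ∪ EX a k → z ∉ Zq a e → Cls a k e (x i) z := by
    intro i z hz hz'
    rcases hB i with h | h
    · exfalso
      apply hz
      apply hsub i
      rw [h]
      exact mem_univ z
    · rcases h z (fun hc => hz (hsub i hc)) with h1 | h1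
      · exact absurd h1 hz'
      · exact h1
  have hg : ∀ i, ∃ g g' : ι, g ≠ g' ∧ Ext a e (x i) g ∧ Ext a e (x i) g' := by
    intro i
    obtain ⟨ℓ, -, -, -, g, g', h1, h2, h3, -⟩ := hcls i z0 hz0 hz0'
    exact ⟨g, g', h1, h2, h3⟩
  choose g g' hgg hg1 hg2 using hg
  obtain ⟨Q, hQ⟩ : ∃ Q : Fin 3 → V, ∀ i, Q i = cr (tg e (a (x i))) (cr (a (g i)) (a (g' i))) :=
    ⟨_, fun _ => rfl⟩
  have hq0 : ∀ y ∈ Zq a e, quad e (a y) = 0 := by
    intro y hy
    unfold Zq at hy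
    exact (mem_filter.mp hy).2
  have hQ0 : ∀ i, Q i ≠ 0 := by
    intro i
    rw [hQ]
    exact tn3.2 e (a (x i)) (a (g i)) (a (g' i)) hnl (hq0 _ (hx i).1) (hq0 _ (hg1 i).1)
      (ha _ _ (hg1 i).2.1.symm) (ha _ _ (hgg i))
  have hnp : ∃ i j, cr (Q i) (Q j) ≠ 0 := by
    by_contra hcon
    push Not at hcon
    apply hQ0 0
    refine tn3.1 e (fun i => a (x i)) (Q 0) hnl (fun i => hq0 _ (hx i).1) ?_ ?_
    · intro i j hij
      exact ha _ _ (fun h => hij (hinj h))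
    · intro i
      refine par_ip (hQ0 i) (hcon i 0) ?_
      rw [hQ]
      exact ip_cr_self _ _
  obtain ⟨i, j, hij⟩ := hnp
  refine ⟨cr (Q i) (Q j), hij, ?_⟩
  intro z hz hz'
  rw [(bas.1 (Q i) (Q j) (a z)).1]
  -- the line of `z`
  have hline : ∀ m, ∃ ℓ ∈ lns a, k ≤ ℓ.card ∧ z ∈ ℓ ∧ ∀ p ∈ ℓ, ∀ q ∈ ℓ,
      dt (a p) (a q) (Q m) = 0 := by
    intro m
    obtain ⟨ℓ, h1, h2, h3, f, f', h4, h5, h6, h7⟩ := hcls m z hz hz'
    refine ⟨ℓ, h1, h2, h3, ?_⟩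
    intro p hp q hq
    have h8 := h7 p hp q hq
    rcases uni ι a e (x m) f f' (g m) (g' m) h4 (hgg m) h5 h6 (hg1 m) (hg2 m) with
      ⟨r1, r2⟩ | ⟨r1, r2⟩
    · rw [hQ, ← r1, ← r2]
      exact h8
    · rw [hQ, ← r1, ← r2, dt_cr_swap, h8, neg_zero]
  have hzE : z ∉ EX a k := fun h => hz (mem_union_right _ h)
  have hrc : ∀ ℓ ∈ lns a, k ≤ ℓ.card → ℓ ∈ RC a k := by
    intro ℓ h1 h2
    unfold RC
    rw [mem_filter]
    exact ⟨mem_univ _, h2, Or.inl h1⟩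
  obtain ⟨ℓ, l1, l2, l3, l4⟩ := hline i
  obtain ⟨ℓ', m1, m2, m3, m4⟩ := hline j
  have hll : ℓ' = ℓ := H77U.same hzE (hrc ℓ' m1 m2) (hrc ℓ l1 l2) m3 l3
  subst hll
  obtain ⟨z', hz'1, hz'2⟩ := exists_mem_ne (by omega : 1 < ℓ'.card) z
  have hcz : cr (a z) (a z') ≠ 0 := ha _ _ hz'2.symm
  obtain ⟨s, t, h1⟩ := (bas.2.2.2.1 (a z) (a z') (Q i) hcz).mp (l4 z l3 z' hz'1)
  obtain ⟨s', t', h2⟩ := (bas.2.2.2.1 (a z) (a z') (Q j) hcz).mp (m4 z l3 z' hz'1)
  rw [h1, h2]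
  simp only [dt, Pi.add_apply, Pi.smul_apply, smul_eq_mul]
  ring

end Pool.Agent.OMF.H61
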