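import Pool.Agent.OMF.Stmts

/-! Squad OMF, row UNI (the two neighbours are unique). -/

namespace Pool.Agent.OMF.H61

open Finset Pool.Agent.GTO
open scoped Classical

theorem sgn_aux {s s' ε ε' : ℝ} (h : 0 < ε * s) (h' : 0 < ε' * s') (hs : s' = -s) :
    ε * ε' < 0 := by
  subst hs
  by_contra hc
  have hc : 0 ≤ ε * ε' := not_lt.mp hc
  have h1 : 0 < (ε * s) * (ε' * -s) := mul_pos h h'
  have h2 : (ε * s) * (ε' * -s) = -(ε * ε') * s ^ 2 := by ring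
  rw [h2] at h1
  nlinarith [sq_nonneg s, mul_nonneg hc (sq_nonneg s)]

theorem uni : UniStmt := by
  intro ι _ a e x g g' h h' hgg hhh hg hg' hh hh'
  have key : ∀ p q : ι, p ≠ q → ∀ ε ε' : ℝ,
      (∀ P ∈ Zq a e, P ≠ x → P ≠ p →
        0 < ε * (dt (a x) (a p) (a P) * ip (tg e (a x)) (a p) * ip (tg e (a x)) (a P))) →
      (∀ P ∈ Zq a e, P ≠ x → P ≠ q →
        0 < ε' * (dt (a x) (a q) (a P) * ip (tg e (a x)) (a q) * ip (tg e (a x)) (a P))) →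
      p ∈ Zq a e → q ∈ Zq a e → p ≠ x → q ≠ x → ε * ε' < 0 := by
    intro p q hpq ε ε' hε hε' hp hq hpx hqx
    refine sgn_aux (hε q hq hqx hpq.symm) (hε' p hp hpx hpq) ?_
    simp only [dt]
    ring
  obtain ⟨g1, g2, ε1, g3⟩ := hg
  obtain ⟨g1', g2', ε1', g3'⟩ := hg'
  obtain ⟨h1, h2, ε2, h3⟩ := hh
  obtain ⟨h1', h2', ε2', h3'⟩ := hh'
  have e1 : ε1 * ε1' < 0 := key g g' hgg ε1 ε1' g3 g3' g1 g1' g2 g2'
  have e2 : ε2 * ε2' < 0 := key h h' hhh ε2 ε2' h3 h3' h1 h1' h2 h2'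
  have t1 : g ≠ h → ε1 * ε2 < 0 := fun hn => key g h hn ε1 ε2 g3 h3 g1 h1 g2 h2
  have t2 : g ≠ h' → ε1 * ε2' < 0 := fun hn => key g h' hn ε1 ε2' g3 h3' g1 h1' g2 h2'
  have t3 : g' ≠ h → ε1' * ε2 < 0 := fun hn => key g' h hn ε1' ε2 g3' h3 g1' h1 g2' h2
  have t4 : g' ≠ h' → ε1' * ε2' < 0 := fun hn => key g' h' hn ε1' ε2' g3' h3' g1' h1' g2' h2'
  have tri : ∀ u v w : ℝ, u * v < 0 → v * w < 0 → w * u < 0 → False := by
    intro u v w huv hvw hwu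
    have : 0 < (u * v) * (v * w) := mul_pos_of_neg_of_neg huv hvw
    have h5 : (u * v) * (v * w) * (w * u) < 0 := mul_neg_of_pos_of_neg this hwu
    nlinarith [sq_nonneg (u * v * w)]
  by_cases c1 : g = h
  · by_cases c2 : g' = h'
    · exact Or.inl ⟨c1, c2⟩
    · exfalso
      have s1 := t4 c2
      have s2 : g ≠ h' := by
        intro hc; exact hhh (c1.symm.trans hc)
      have s3 := t2 s2
      exact tri ε1 ε1' ε2' e1 s1 (by linarith [mul_comm ε2' ε1])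
  · have s1 := t1 c1
    by_cases c2 : g = h'
    · by_cases c3 : g' = h
      · exact Or.inr ⟨c2, c3⟩
      · exfalso
        exact tri ε1 ε1' ε2 e1 (t3 c3) (by linarith [mul_comm ε2 ε1])
    · exfalso
      exact tri ε1 ε2 ε2' s1 e2 (by linarith [t2 c2, mul_comm ε2' ε1])

end Pool.Agent.OMF.H61
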